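import Pool.Agent.H25.EE.Defs

/-! Targets of the board ee_modules, part B: rational values give the family `FT`. -/

set_option autoImplicit false

open Polynomial Finset

namespace Pool.Agent.H25.EE

/-- derivatives of `exp (w z)` as power series -/
def T_TAY : Prop := ∀ (i t : ℕ) (w z : ℂ), HasSum
  (fun n : ℕ => (n.descFactorial i : ℂ) * w ^ (n - i) *
    ((n.descFactorial t : ℂ) * z ^ (n - t)) / (n.factorial : ℂ))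
  (Complex.exp (w * z) * ∑ l ∈ range (min i t + 1),
    ((l.factorial * i.choose l * t.choose l : ℕ) : ℂ) * z ^ (i - l) * w ^ (t - l))

/-- the entries at `e` -/
def T_ENT : Prop := ∀ (π : Par) (J : ℕ) (a b : Idx), a ∈ Ix s0 J → b ∈ Ix s1 J →
  HasSum (fun n => al π a n * be π J b n) (ev (mm π J a b) ee)

/-- size of the factors -/
def T_BND : Prop := ∀ π : Par, ∃ C : ℝ, 0 ≤ C ∧ ∀ J : ℕ, 1 ≤ J →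
  (∀ a ∈ Ix s0 J, Real.exp (-(C * (J : ℝ) ^ 2)) ≤ ‖ra π a‖ ∧ ∀ n : ℕ, ‖al π a n‖ ≤
    Real.exp (C * (J : ℝ) ^ 2) * ((n : ℝ) + 1) ^ (J ^ 2) * (rho π * J) ^ n) ∧
  (∀ b ∈ Ix s1 J, Real.exp (-(C * (J : ℝ) ^ 2)) ≤ ‖cb π J b‖ ∧ ∀ n : ℕ, ‖be π J b n‖ ≤
    Real.exp (C * (J : ℝ) ^ 2) * ((n : ℝ) + 1) ^ (J ^ 2) * (rho π * J) ^ n / n.factorial)

/-- degree and length of the entries -/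
def T_LEN : Prop := ∀ π : Par, ∃ C : ℝ, 0 ≤ C ∧ ∀ J : ℕ, 2 ≤ J →
  ∀ a ∈ Ix s0 J, ∀ b ∈ Ix s1 J, (mm π J a b).natDegree ≤ a.2 + b.2 + EX a b ∧
  plen (mm π J a b) ≤ Real.exp (((a.2 : ℝ) + b.2) * Real.log J + C * (J : ℝ) ^ 2)

def T_EXB : Prop := ∀ a b : Idx, (EX a b : ℝ) ≤
  ((a.1.1 : ℝ) ^ 2 + (a.1.2 : ℝ) ^ 2) + ((b.1.1 : ℝ) ^ 2 + (b.1.2 : ℝ) ^ 2) + 1

/-- the entries near `e` -/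
def T_DIFF : Prop := ∀ π : Par, ∃ C : ℝ, 0 ≤ C ∧ ∀ J : ℕ, 2 ≤ J →
  ∀ a ∈ Ix s0 J, ∀ b ∈ Ix s1 J, ∀ x : ℂ, ‖x - ee‖ ≤ 1 →
  ‖ev (mm π J a b) x - ev (mm π J a b) ee‖ ≤
    ‖x - ee‖ * Real.exp (C * (J : ℝ) ^ 2 * Real.log J)

/-- sum over injective maps -/
def T_ESY : Prop := ∀ (m N : ℕ) (g G : ℕ → ℝ), (∀ n, 0 ≤ g n) →
  (∀ l, ∑ n ∈ Ico l N, g n ≤ G l) →
  ∑ f ∈ (univ : Finset (Fin m → Fin N)).filter (fun f => Function.Injective f),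
    ∏ i, g (f i) ≤ (m.factorial : ℝ) * ∏ l ∈ range m, G l

/-- determinant bound, finite sums -/
def T_DETF : Prop := ∀ (ι : Type) [Fintype ι] [DecidableEq ι] (N : ℕ) (A B : ι → ℕ → ℂ)
  (E : ι → ι → ℂ) (a b : ℕ → ℝ) (η U : ℝ) (G : ℕ → ℝ),
  (∀ i n, ‖A i n‖ ≤ a n) → (∀ i n, ‖B i n‖ ≤ b n) → (∀ n, 0 ≤ a n) → (∀ n, 0 ≤ b n) →
  (∀ l, ∑ n ∈ Ico l N, a n * b n ≤ G l) → 0 ≤ η → (∀ i j, ‖E i j‖ ≤ η) →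
  (∀ r ≤ Fintype.card ι, η ^ r * ∏ l ∈ range (Fintype.card ι - r), G l ≤ U) →
  ‖Matrix.det (Matrix.of fun i j => ∑ n ∈ range N, A i n * B j n + E i j)‖ ≤
    2 ^ Fintype.card ι * ((Fintype.card ι).factorial : ℝ) ^ 2 * U

/-- determinant bound, infinite sums -/
def T_DETU : Prop := ∀ (ι : Type) [Fintype ι] [DecidableEq ι] (A B : ι → ℕ → ℂ)
  (S M : ι → ι → ℂ) (a b : ℕ → ℝ) (η U : ℝ) (G : ℕ → ℝ),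
  (∀ i n, ‖A i n‖ ≤ a n) → (∀ i n, ‖B i n‖ ≤ b n) → (∀ n, 0 ≤ a n) → (∀ n, 0 ≤ b n) →
  Summable (fun n => a n * b n) → (∀ l, ∑' n, a (n + l) * b (n + l) ≤ G l) → 0 ≤ η →
  (∀ i j, HasSum (fun n => A i n * B j n) (S i j)) → (∀ i j, ‖M i j - S i j‖ ≤ η) →
  (∀ r ≤ Fintype.card ι, η ^ r * ∏ l ∈ range (Fintype.card ι - r), G l ≤ U) →
  ‖Matrix.det (Matrix.of fun i j => M i j)‖ ≤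
    2 ^ Fintype.card ι * ((Fintype.card ι).factorial : ℝ) ^ 2 * U

/-- the general term -/
noncomputable def gt (C0 ρ : ℝ) (J : ℕ) (n : ℕ) : ℝ :=
  Real.exp (C0 * (J : ℝ) ^ 2) * ((n : ℝ) + 1) ^ (2 * J ^ 2) * (ρ * J) ^ (2 * n) / n.factorial

/-- product of the tails -/
def T_GAM : Prop := ∀ C0 ρ : ℝ, 0 ≤ C0 → 1 ≤ ρ → ∃ (C1 : ℝ) (J0 : ℕ), ∀ J ≥ J0,
  Summable (gt C0 ρ J) ∧ ∀ m : ℕ, m ≤ J ^ 4 →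
  ∏ l ∈ range m, (∑' n, gt C0 ρ J (n + l)) ≤
    Real.exp (-((m : ℝ) ^ 2 * Real.log J) + C1 * (J : ℝ) ^ 8)

/-- numbers of rows and columns -/
def T_CARD : Prop := (∀ J : ℕ, 1 ≤ J → ((Ix s0 J).card : ℝ) ≤ 2 / 1125 * (J : ℝ) ^ 4) ∧
  (∀ J : ℕ, 1 ≤ J → ((Ix s1 J).card : ℝ) ≤ 1001 / 1000 * (2 / 1125) * (J : ℝ) ^ 4) ∧
  (∀ J : ℕ, 1 ≤ J → 2 / 1125 * (J : ℝ) ^ 4 - 10 * (J : ℝ) ^ 2 ≤ (Ix s0 J).card) ∧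
  (∃ J0 : ℕ, ∀ J ≥ J0, 10009 / 10000 * (2 / 1125) * (J : ℝ) ^ 4 ≤ (Ix s1 J).card) ∧
  (∀ (J : ℕ) (x : ℤ × ℤ), x ∈ nd J → mlt s0 J x ≤ J ^ 2 ∧ mlt s1 J x ≤ J ^ 2)

/-- moments -/
def T_SUMS : Prop := ∀ (σ : ℚ) (J : ℕ), 0 < σ → σ ≤ 1 → 1 ≤ J →
  ∑ a ∈ Ix σ J, (((a.1.1 : ℝ)) ^ 2 + (a.1.2 : ℝ) ^ 2) ≤ σ * (32 / 45) * (J : ℝ) ^ 6 ∧
  ∑ a ∈ Ix σ J, (a.2 : ℝ) ≤ (σ : ℝ) ^ 2 * (128 / 225) * (J : ℝ) ^ 6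

/-- degree and length of the minors -/
def T_DEGH : Prop := ∀ π : Par, ∃ J0 : ℕ, ∀ J ≥ J0,
  ∀ g : {a // a ∈ Ix s0 J} → {b // b ∈ Ix s1 J}, Function.Injective g →
  ((DD π J g).natDegree : ℝ) ≤ bN J ∧ plen (DD π J g) ≤ Real.exp (bH J)

/-- size of the minors near `e` -/
def T_UPP : Prop := ∀ π : Par, ∀ ε : ℝ, 0 < ε → ∃ J0 : ℕ, ∀ J ≥ J0,
  ∀ g : {a // a ∈ Ix s0 J} → {b // b ∈ Ix s1 J}, ∀ v : ℝ, 0 ≤ v → ∀ x : ℂ,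
  ‖x - ee‖ ≤ Real.exp (-v) → ‖ev (DD π J g) x‖ ≤ Real.exp (-(phi ε J v))

/-- confluent Vandermonde: recovery of the coefficients -/
def T_RL : Prop := ∀ (τ : Type) [DecidableEq τ] (S : Finset τ) (ω : τ → ℂ) (I : τ → ℕ)
  (c : τ → ℕ → ℂ) (ρ δ B Q : ℝ) (D : ℕ), 1 ≤ ρ → 0 < δ → δ ≤ 1 → 0 ≤ B → 0 < Q → 1 ≤ D →
  (∀ x ∈ S, ‖ω x‖ ≤ ρ ∧ I x ≤ D) → (∀ x ∈ S, ∀ y ∈ S, x ≠ y → δ ≤ ‖ω x - ω y‖) →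
  (∀ x ∈ S, Q ≤ ∏ y ∈ S.erase x, ‖ω x - ω y‖ ^ I y) →
  (∀ n < ∑ x ∈ S, I x, ‖∑ x ∈ S, ∑ i ∈ range (I x),
    c x i * ((n.descFactorial i : ℂ) * ω x ^ (n - i))‖ ≤ B * ρ ^ n) →
  ∀ x ∈ S, ∀ i < I x, ‖c x i‖ ≤
    B * ((2 * ρ) ^ (∑ x ∈ S, I x) / Q) * (2 * D * ((∑ x ∈ S, I x : ℕ) : ℝ) / δ) ^ D

/-- confluent Vandermonde: Hermite interpolation -/
def T_DUAL : Prop := ∀ (τ : Type) [DecidableEq τ] (S : Finset τ) (ω : τ → ℂ) (I : τ → ℕ)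
  (ρ δ E Q : ℝ) (D : ℕ) (u : ℕ → ℂ), 1 ≤ ρ → 0 < δ → δ ≤ 1 → 0 ≤ E → 0 < Q → 1 ≤ D →
  (∀ x ∈ S, ‖ω x‖ ≤ ρ ∧ I x ≤ D) → (∀ x ∈ S, ∀ y ∈ S, x ≠ y → δ ≤ ‖ω x - ω y‖) →
  (∀ x ∈ S, Q ≤ ∏ y ∈ S.erase x, ‖ω x - ω y‖ ^ I y) →
  (∀ x ∈ S, ∀ i < I x, ‖∑ n ∈ range (∑ x ∈ S, I x),
    u n * ((n.descFactorial i : ℂ) * ω x ^ (n - i))‖ ≤ E) →
  ∀ n < ∑ x ∈ S, I x, ‖u n‖ * ρ ^ n ≤ ((∑ x ∈ S, I x : ℕ) : ℝ) * E *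
    ((2 * ρ) ^ (∑ x ∈ S, I x) / Q) * (2 * D * ((∑ x ∈ S, I x : ℕ) : ℝ) / δ) ^ D

/-- measure of `e` -/
def T_MEAS : Prop := ∃ c : ℝ, 0 < c ∧ ∀ x y : ℤ, (x ≠ 0 ∨ y ≠ 0) →
  c / (|(x : ℝ)| + |(y : ℝ)|) ^ 2 ≤ |(x : ℝ) + y * Real.exp 1|

/-- irrationality of `e` -/
def T_LNZ : Prop := ∀ l : ℤ × ℤ, l ≠ 0 → lin l ≠ 0

/-- the nodes are separated -/
def T_SPR : Prop := ∀ π : Par, ∃ J0 : ℕ, ∀ J ≥ J0, ∀ x ∈ nd J, ∀ y ∈ nd J, x ≠ y →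
  1 ≤ (J : ℝ) ^ 3 * ‖om π x - om π y‖ ∧ 1 ≤ (J : ℝ) ^ 3 * ‖ze π x - ze π y‖

/-- nodes in a strip -/
def T_STR : Prop := ∀ κ1 κ2 : ℝ, κ1 ≠ 0 → ∃ K : ℝ, ∀ J M : ℕ, 1 ≤ M → M ≤ J → ∀ x : ℤ × ℤ,
  (((nd J).filter fun y : ℤ × ℤ =>
    |((x.1 : ℝ) * κ1 + x.2 * κ2) - ((y.1 : ℝ) * κ1 + y.2 * κ2)| * M ≤ J).card : ℝ) ≤
    K * (J : ℝ) ^ 2 / M

/-- product of the differences -/
def T_SEP : Prop := ∀ (π : Par) (σ : ℚ), (σ = s0 ∨ σ = s1) → ∀ ε : ℝ, 0 < ε → ∃ J0 : ℕ,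
  ∀ J ≥ J0, ∀ x ∈ nd J,
  Real.exp ((1 - ε) * (Ix σ J).card * Real.log J) ≤
    ∏ y ∈ (nd J).erase x, ‖om π x - om π y‖ ^ mlt σ J y ∧
  Real.exp ((1 - ε) * (Ix σ J).card * Real.log J) ≤
    ∏ y ∈ (nd J).erase x, ‖ze π x - ze π y‖ ^ mlt σ J y

/-- tail of the exponential series -/
def T_TAIL : Prop := ∀ ρ ε : ℝ, 1 ≤ ρ → 0 < ε → ∃ J0 : ℕ, ∀ J ≥ J0,
  Summable (gt 0 ρ J) ∧ ∀ k : ℕ, J ^ 4 ≤ 1000 * k → k ≤ J ^ 4 →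
  ∑' n, gt 0 ρ J (n + k) ≤ Real.exp (-((2 - ε) * k * Real.log J))

/-- numerical inequality for the rank -/
def T_NUM : Prop := ∀ ρ C1 : ℝ, 1 ≤ ρ → 0 ≤ C1 → ∃ J0 : ℕ, ∀ J ≥ J0, ∀ k k' : ℕ,
  (k : ℝ) ≤ 2 / 1125 * (J : ℝ) ^ 4 → J ^ 4 ≤ 1000 * k →
  10009 / 10000 * (2 / 1125) * (J : ℝ) ^ 4 ≤ k' →
  (k' : ℝ) ≤ 1001 / 1000 * (2 / 1125) * (J : ℝ) ^ 4 →
  (J : ℝ) ^ (2 * k) * ((k : ℝ) * k') *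
    ((2 * (ρ * J)) ^ k' / Real.exp ((1 - 1 / 10000) * k' * Real.log J) *
      (2 * (J : ℝ) ^ 2 * k' * (J : ℝ) ^ 3) ^ (J ^ 2)) *
    ((2 * (ρ * J)) ^ k / Real.exp ((1 - 1 / 10000) * k * Real.log J) *
      (2 * (J : ℝ) ^ 2 * k * (J : ℝ) ^ 3) ^ (J ^ 2)) *
    (Real.exp (C1 * (J : ℝ) ^ 2 * Real.log J) * (Real.exp (-(thr J)) +
      Real.exp (-((2 - 1 / 10000) * k' * Real.log J)))) < 1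

/-- the rows are independent at a point very near `e` -/
def T_RANK : Prop := ∀ π : Par, ∃ J0 : ℕ, ∀ J ≥ J0, ∀ α : ℂ,
  ‖α - ee‖ ≤ Real.exp (-(thr J)) → ∀ c : Idx → ℂ,
  (∀ b ∈ Ix s1 J, ∑ a ∈ Ix s0 J, c a * ev (mm π J a b) α = 0) → ∀ a ∈ Ix s0 J, c a = 0

/-- choice of a minor -/
def T_MIN : Prop := ∀ (ι κ : Type) [Fintype ι] [DecidableEq ι] [Fintype κ] [DecidableEq κ]
  (M : ι → κ → ℂ), (∀ c : ι → ℂ, (∀ b, ∑ a, c a * M a b = 0) → c = 0) →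
  ∃ g : ι → κ, Function.Injective g ∧ Matrix.det (Matrix.of fun a a' => M a (g a')) ≠ 0

/-- evaluation of the minors -/
def T_EVD : Prop := ∀ (π : Par) (J : ℕ) (g : {a // a ∈ Ix s0 J} → {b // b ∈ Ix s1 J}) (x : ℂ),
  ev (DD π J g) x =
    Matrix.det (Matrix.of fun a a' : {a // a ∈ Ix s0 J} => ev (mm π J a.1 (g a').1) x)

/-- the family -/
def T_FTF : Prop := Par → FT

/-- the four exponentials are not all rational -/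
def T_FOUR : Prop := Par → False

/-- the theorem -/
def T_MAIN : Prop := ∀ (r : ℚ) (a b c d f g h : ℤ), r ≠ 0 → (a * c + f * h) ^ 2 = 1 →
  a * g ≠ b * f → c * g ≠ d * f →
  ¬ ((∃ y : ℚ, Real.exp (r * Real.exp 1) = y) ∧
    (∃ z : ℚ, Real.exp ((a + b * (r * Real.exp 1)) * (c + d * (r * Real.exp 1)) /
      (f + g * (r * Real.exp 1)) + h) = z))

end Pool.Agent.H25.EE
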