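import Mathlib

/-! Definitions for the theorem that the four numbers `exp (x_i y_j - δ_ij)`, `i, j = 1, 2`, are
not all rational, if `x_1, x_2, y_1, y_2` are quotients of elements of `ℤ + ℤ e` (with a common
denominator) and `x_1 / x_2` and `y_1 / y_2` are irrational. -/

set_option autoImplicit false

open Polynomial Finset

namespace Pool.Agent.H25.EE

/-- the number `e` -/
noncomputable def ee : ℂ := ((Real.exp 1 : ℝ) : ℂ)

/-- closeness to `e` -/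
noncomputable def vv (β : ℂ) : ℝ := max 0 (-Real.log ‖β - ee‖)

noncomputable def toC (P : ℤ[X]) : ℂ[X] := P.map (Int.castRingHom ℂ)

noncomputable def ev (P : ℤ[X]) (x : ℂ) : ℂ := (toC P).eval x

/-- length -/
noncomputable def plen (P : ℤ[X]) : ℝ := ∑ i ∈ P.support, |(P.coeff i : ℝ)|

/-- logarithmic Mahler measure -/
noncomputable def hM (P : ℤ[X]) : ℝ := (toC P).logMahlerMeasure

noncomputable def rts (P : ℤ[X]) : Multiset ℂ := (toC P).roots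

/-- threshold for the closeness -/
noncomputable def thr (J : ℕ) : ℝ := 713 / 200000 * (J : ℝ) ^ 4 * Real.log J

/-- the profile -/
noncomputable def phi (ε : ℝ) (J : ℕ) (v : ℝ) : ℝ :=
  2 / 1125 * (J : ℝ) ^ 4 * v - v ^ 2 / (4 * Real.log J) - ε * (J : ℝ) ^ 8 * Real.log J

/-- degree bound -/
noncomputable def bN (J : ℕ) : ℝ := 2849 / 2000000 * (J : ℝ) ^ 6

/-- bound for the logarithm of the length -/
noncomputable def bH (J : ℕ) : ℝ := 2279 / 2000000000 * (J : ℝ) ^ 6 * Real.log J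

/-- the family of polynomials at level `J` -/
def FTI (ε : ℝ) (J : ℕ) : Prop := ∀ α : ℂ, ‖α - ee‖ ≤ Real.exp (-(thr J)) → ∃ D : ℤ[X],
  (D.natDegree : ℝ) ≤ bN J ∧ plen D ≤ Real.exp (bH J) ∧ ev D α ≠ 0 ∧
  ∀ v : ℝ, 0 ≤ v → ∀ x : ℂ, ‖x - ee‖ ≤ Real.exp (-v) → ‖ev D x‖ ≤ Real.exp (-(phi ε J v))

def FT : Prop := ∀ ε : ℝ, 0 < ε → ∃ J0 : ℕ, ∀ J ≥ J0, FTI ε J

/-- the concave function used in the summation -/
noncomputable def GG (u : ℝ) : ℝ := 49 / 100 * min u (93 / 245) + 31 / 100 * min u (147 / 155)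

/-- unit for the closeness -/
noncomputable def VJ (J : ℕ) : ℝ := 4 / 1125 * (J : ℝ) ^ 4 * Real.log J

/-- an element of `ℤ + ℤ e` -/
noncomputable def lin (l : ℤ × ℤ) : ℝ := l.1 + l.2 * Real.exp 1

noncomputable def lp (l : ℤ × ℤ) : ℤ[X] := C l.1 + C l.2 * X

/-- the hypothetical rational values -/
structure Par where
  x1 : ℤ × ℤ
  x2 : ℤ × ℤ
  y1 : ℤ × ℤ
  y2 : ℤ × ℤ
  A : ℤ × ℤ
  B : ℤ × ℤ
  u : Fin 2 → Fin 2 → ℕ
  v : Fin 2 → Fin 2 → ℕ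
  hx : x1.1 * x2.2 ≠ x1.2 * x2.1
  hy : y1.1 * y2.2 ≠ y1.2 * y2.1
  hA : A ≠ 0
  hB : B ≠ 0
  hu : ∀ i j, 0 < u i j
  hv : ∀ i j, 0 < v i j
  h11 : Real.exp (lin x1 * lin y1 / (lin A * lin B) - 1) = u 0 0 / v 0 0
  h12 : Real.exp (lin x1 * lin y2 / (lin A * lin B)) = u 0 1 / v 0 1
  h21 : Real.exp (lin x2 * lin y1 / (lin A * lin B)) = u 1 0 / v 1 0
  h22 : Real.exp (lin x2 * lin y2 / (lin A * lin B) - 1) = u 1 1 / v 1 1

/-- frequencies -/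
noncomputable def om (π : Par) (x : ℤ × ℤ) : ℂ :=
  (((x.1 : ℝ) * lin π.x1 + x.2 * lin π.x2) / lin π.B : ℝ)

/-- points -/
noncomputable def ze (π : Par) (x : ℤ × ℤ) : ℂ :=
  (((x.1 : ℝ) * lin π.y1 + x.2 * lin π.y2) / lin π.A : ℝ)

noncomputable def rho (π : Par) : ℝ :=
  1 + (|lin π.x1| + |lin π.x2|) / |lin π.B| + (|lin π.y1| + |lin π.y2|) / |lin π.A|

/-- nodes -/
noncomputable def nd (J : ℕ) : Finset (ℤ × ℤ) := Icc (-(J : ℤ)) J ×ˢ Icc (-(J : ℤ)) J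

/-- multiplicities -/
def mlt (σ : ℚ) (J : ℕ) (x : ℤ × ℤ) : ℕ :=
  ⌊σ * (((J : ℚ) ^ 2 - (x.1 : ℚ) ^ 2) * ((J : ℚ) ^ 2 - (x.2 : ℚ) ^ 2) / (J : ℚ) ^ 2)⌋₊

/-- indices of rows and columns: a node and an order -/
abbrev Idx : Type := Σ _ : ℤ × ℤ, ℕ

noncomputable def Ix (σ : ℚ) (J : ℕ) : Finset Idx := (nd J).sigma fun x => range (mlt σ J x)

def s0 : ℚ := 1 / 1000

def s1 : ℚ := 1001 / 1000000

noncomputable def Wp (π : Par) (x : ℤ × ℤ) : ℤ[X] := C x.1 * lp π.x1 + C x.2 * lp π.x2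

noncomputable def Zp (π : Par) (x : ℤ × ℤ) : ℤ[X] := C x.1 * lp π.y1 + C x.2 * lp π.y2

noncomputable def PP (π : Par) (a b : Idx) : ℤ[X] :=
  ∑ l ∈ range (min a.2 b.2 + 1),
    C (((l.factorial * a.2.choose l * b.2.choose l : ℕ) : ℤ)) * Zp π b.1 ^ (a.2 - l) *
      Wp π a.1 ^ (b.2 - l) * (lp π.A * lp π.B) ^ l

/-- half of the norm, rounded up -/
def hn (x : ℤ × ℤ) : ℤ := (x.1 ^ 2 + x.2 ^ 2 + 1) / 2

def EX (a b : Idx) : ℕ := (a.1.1 * b.1.1 + a.1.2 * b.1.2 + hn a.1 + hn b.1).toNat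

/-- exponents of the four rational numbers -/
def exo (a b : Idx) (i j : Fin 2) : ℤ := (![a.1.1, a.1.2] i) * (![b.1.1, b.1.2] j)

def cst (π : Par) (J : ℕ) (a b : Idx) : ℤ :=
  ∏ i : Fin 2, ∏ j : Fin 2, ((π.u i j : ℤ) ^ ((J : ℤ) ^ 2 + exo a b i j).toNat *
    (π.v i j : ℤ) ^ ((J : ℤ) ^ 2 - exo a b i j).toNat)

/-- the entries -/
noncomputable def mm (π : Par) (J : ℕ) (a b : Idx) : ℤ[X] :=
  C (cst π J a b) * PP π a b * X ^ (EX a b)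

noncomputable def ra (π : Par) (a : Idx) : ℂ :=
  ((lin π.A : ℝ) : ℂ) ^ a.2 * ee ^ (hn a.1).toNat

noncomputable def cb (π : Par) (J : ℕ) (b : Idx) : ℂ :=
  ((lin π.B : ℝ) : ℂ) ^ b.2 * ee ^ (hn b.1).toNat *
    ∏ i : Fin 2, ∏ j : Fin 2, ((π.u i j : ℂ) * π.v i j) ^ (J ^ 2)

noncomputable def al (π : Par) (a : Idx) (n : ℕ) : ℂ :=
  ra π a * (n.descFactorial a.2 : ℂ) * om π a.1 ^ (n - a.2)

noncomputable def be (π : Par) (J : ℕ) (b : Idx) (n : ℕ) : ℂ :=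
  cb π J b * (n.descFactorial b.2 : ℂ) * ze π b.1 ^ (n - b.2) / (n.factorial : ℂ)

/-- the minors -/
noncomputable def DD (π : Par) (J : ℕ) (g : {a // a ∈ Ix s0 J} → {b // b ∈ Ix s1 J}) : ℤ[X] :=
  Matrix.det (Matrix.of fun a a' : {a // a ∈ Ix s0 J} => mm π J a.1 (g a').1)

end Pool.Agent.H25.EE
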