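import Pool.Agent.H25.EE.TargetsB
import Pool.Agent.H67.EF.Meas

set_option autoImplicit false

namespace Pool.Agent.H25.EE

theorem pf_MEAS : T_MEAS := by
  refine ⟨1 / 208, by norm_num, ?_⟩
  have key : ∀ (q : ℕ) (hq : 1 ≤ q) (p : ℤ), 1 / 208 / ((q : ℝ) + |(p : ℝ)|) ^ 2 ≤
      |(q : ℝ) * Real.exp 1 - p| := by
    intro q hq p
    have h1 := Pool.Agent.H67.EF.meas q hq p
    have hq1 : (1 : ℝ) ≤ q := by exact_mod_cast hq
    have hl : Real.log q ≤ q := by
      have := Real.log_le_sub_one_of_pos (show (0 : ℝ) < q by linarith)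
      linarith
    have hl0 : 0 ≤ Real.log q := Real.log_nonneg hq1
    have h2 : 104 * (q : ℝ) * (1 + Real.log q) ≤ 208 * ((q : ℝ) + |(p : ℝ)|) ^ 2 := by
      have hp := abs_nonneg (p : ℝ)
      nlinarith
    have h3 : 1 / 208 / ((q : ℝ) + |(p : ℝ)|) ^ 2 = 1 / (208 * ((q : ℝ) + |(p : ℝ)|) ^ 2) := by
      rw [div_div]
    rw [h3]
    refine le_trans ?_ (le_trans h1 (le_of_eq ?_))
    · apply one_div_le_one_div_of_le _ h2
      positivity
    · rfl
  intro x y hxy
  rcases lt_trichotomy y 0 with hy | hy | hy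
  · have h := key y.natAbs (by omega) x
    have e1 : ((y.natAbs : ℕ) : ℝ) = -(y : ℝ) := by
      rw [Nat.cast_natAbs]
      push_cast
      exact abs_of_neg (by exact_mod_cast hy)
    have e2 : |(y : ℝ)| = -(y : ℝ) := abs_of_neg (by exact_mod_cast hy)
    rw [e1] at h
    rw [e2, add_comm |(x : ℝ)|]
    refine h.trans (le_of_eq ?_)
    rw [← abs_neg]
    congr 1
    ring
  · subst hy
    have hx : x ≠ 0 := by simpa using hxy
    have h1 : (1 : ℝ) ≤ |(x : ℝ)| := by
      have := Int.one_le_abs hx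
      exact_mod_cast this
    have h2 : (1 : ℝ) ≤ |(x : ℝ)| ^ 2 := by nlinarith
    simp only [Int.cast_zero, zero_mul, add_zero, abs_zero]
    rw [div_le_iff₀ (by linarith)]
    nlinarith
  · have h := key y.natAbs (by omega) (-x)
    have e1 : ((y.natAbs : ℕ) : ℝ) = (y : ℝ) := by
      rw [Nat.cast_natAbs]
      push_cast
      exact abs_of_pos (by exact_mod_cast hy)
    have e2 : |(y : ℝ)| = (y : ℝ) := abs_of_pos (by exact_mod_cast hy)
    rw [e1] at h
    push_cast at h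
    rw [abs_neg] at h
    rw [e2, add_comm |(x : ℝ)|]
    refine h.trans (le_of_eq ?_)
    congr 1
    ring

theorem pf_LNZ : T_LNZ := by
  intro l hl h0
  obtain ⟨c, hc, h⟩ := pf_MEAS
  have h1 : l.1 ≠ 0 ∨ l.2 ≠ 0 := by
    by_contra hcon
    push Not at hcon
    exact hl (Prod.ext hcon.1 hcon.2)
  have h2 := h l.1 l.2 h1
  unfold lin at h0
  rw [h0, abs_zero] at h2
  have h3 : 0 < |(l.1 : ℝ)| + |(l.2 : ℝ)| := by
    rcases h1 with h1 | h1
    · have : 0 < |(l.1 : ℝ)| := abs_pos.mpr (by exact_mod_cast h1)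
      have := abs_nonneg (l.2 : ℝ)
      linarith
    · have : 0 < |(l.2 : ℝ)| := abs_pos.mpr (by exact_mod_cast h1)
      have := abs_nonneg (l.1 : ℝ)
      linarith
  have : 0 < c / (|(l.1 : ℝ)| + |(l.2 : ℝ)|) ^ 2 := by positivity
  linarith

end Pool.Agent.H25.EE
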