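import Pool.Agent.H25.EE.Defs

/-! Targets of the board ee_modules, part A: the criterion `FT → False`. -/

set_option autoImplicit false

open Polynomial Finset

namespace Pool.Agent.H25.EE

/-- a point which is not close to the members of a multiset -/
def T_GP : Prop := ∀ (S : Multiset ℂ) (N : ℕ) (c : ℂ) (ρ : ℝ), Multiset.card S ≤ N → 0 < ρ →
  ∃ x0 : ℂ, ‖x0 - c‖ ≤ ρ ∧ ∀ β ∈ S, max ρ ‖β - c‖ ≤ 8 * ((N : ℝ) + 1) * ‖x0 - β‖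

/-- many zeros near `e` -/
def T_PROF : Prop := ∀ (D : ℤ[X]) (N : ℕ) (s φ : ℝ), D.natDegree ≤ N → 0 ≤ s → ev D ee ≠ 0 →
  (∀ x : ℂ, ‖x - ee‖ ≤ Real.exp (-s) → ‖ev D x‖ ≤ Real.exp (-φ)) →
  φ - N * Real.log (8 * ((N : ℝ) + 1)) ≤ ((rts D).map fun β => min s (vv β)).sum

/-- resultant inequality -/
def T_RES : Prop := ∀ (R Q : ℤ[X]) (β1 : ℂ) (N : ℕ) (H : ℝ) (g : ℂ → ℝ), Irreducible R →
  ev R β1 = 0 → ev Q β1 ≠ 0 → Q.natDegree ≤ N →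
  (∀ β : ℂ, ev R β = 0 →
    ‖ev Q β‖ ≤ Real.exp H * (max 1 ‖β‖) ^ N * Real.exp (-(g β))) →
  ((rts R).map g).sum ≤ N * hM R + R.natDegree * H

/-- factorization -/
def T_FAC : Prop := ∀ D : ℤ[X], D ≠ 0 → ∃ F : Multiset ℤ[X],
  (∀ R ∈ F, Irreducible R ∧ R ∣ D ∧ 0 ≤ hM R) ∧
  (F.map fun R => (R.natDegree : ℝ)).sum = D.natDegree ∧
  (F.map hM).sum ≤ Real.log (plen D) ∧ (F.map rts).sum = rts D ∧ 1 ≤ plen D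

/-- the inequality at one level -/
def T_ONE : Prop := ∀ (ε : ℝ) (J : ℕ), 0 ≤ ε → 2 ≤ J → FTI ε J → ∀ R : ℤ[X], Irreducible R →
  ev R ee ≠ 0 → ∀ β1 : ℂ, ev R β1 = 0 → thr J ≤ vv β1 → ∀ w : ℂ → ℝ,
  (∀ β : ℂ, ev R β = 0 → 0 ≤ w β ∧ w β ≤ vv β) →
  ((rts R).map fun β => max 0 (phi ε J (w β))).sum ≤ bN J * hM R + bH J * R.natDegree

/-- counting zeros near `e` -/
def T_CNT : Prop := ∀ (ε : ℝ) (J j : ℕ) (D : ℤ[X]), 0 < ε → ε ≤ 1 / 1000000 → 2 ≤ j → j ≤ J →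
  FTI ε j → ev D ee ≠ 0 → (D.natDegree : ℝ) ≤ bN J → plen D ≤ Real.exp (bH J) →
  (Multiset.card ((rts D).filter fun β => thr j ≤ vv β) : ℝ) * ((j : ℝ) ^ 2 * Real.log j) ≤
    3 / 1000 * (J : ℝ) ^ 6 * Real.log J

/-- the zeros not very near `e` do not matter -/
def T_SML : Prop := ∀ (ε : ℝ) (J0 : ℕ), 0 < ε → ε ≤ 1 / 1000000 → (∀ J ≥ J0, FTI ε J) →
  ∃ K : ℝ, ∀ (J m : ℕ) (D : ℤ[X]), 2 ≤ J → 2 ^ m ≤ J → ev D ee ≠ 0 →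
  (D.natDegree : ℝ) ≤ bN J → plen D ≤ Real.exp (bH J) →
  (((rts D).filter fun β => vv β < thr (2 ^ m)).map vv).sum ≤
    K * (J : ℝ) ^ 6 + 3 / 20000 * ((2 : ℝ) ^ m) ^ 2 * (J : ℝ) ^ 6 * Real.log J

/-- inequality for the concave function -/
def T_GIN : Prop := (∀ a q : ℝ, 0 ≤ a → a ≤ 1 → 0 ≤ q → q ≤ 1 →
    GG (a * q ^ 2) ≤ q * (a - a ^ 2 / 2)) ∧
  (∀ u : ℝ, 0 ≤ u → 0 ≤ GG u) ∧ (∀ u : ℝ, GG u ≤ 12 / 25) ∧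
  (∀ u v : ℝ, u ≤ v → GG u ≤ GG v) ∧ (∀ l u : ℝ, 1 ≤ l → 0 ≤ u → GG (l * u) ≤ l * GG u)

/-- pointwise inequality -/
def T_PW : Prop := ∃ Jb : ℕ, ∀ J ≥ Jb, ∀ J1 J' : ℕ, J ≤ 200 * J1 → J1 ≤ J' → J' ≤ J →
  ∀ v : ℝ, thr J1 ≤ v → (J' = J ∨ v < thr (J' + 1)) →
  8 / 1265625 * (J : ℝ) ^ 8 * Real.log J * GG (v / VJ J) ≤
    101 / 100 * ((J : ℝ) / J') ^ 6 * phi (1 / 10 ^ 20) J' (min v (VJ J'))

/-- key inequality for an irreducible factor -/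
def T_KEYR : Prop := ∃ Jb : ℕ, ∀ J ≥ Jb, ∀ J1 : ℕ, J ≤ 200 * J1 → J1 ≤ J →
  (∀ j : ℕ, J1 ≤ j → j ≤ J → FTI (1 / 10 ^ 20) j) → ∀ R : ℤ[X], Irreducible R →
  ev R ee ≠ 0 → 0 ≤ hM R →
  8 / 1265625 * (J : ℝ) ^ 8 * Real.log J *
    (((rts R).filter fun β => thr J1 ≤ vv β).map fun β => GG (vv β / VJ J)).sum ≤
    101 / 100 * (bN J * hM R + bH J * R.natDegree)

/-- asymptotic inequality used at the end -/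
def T_NFIN : Prop := ∀ K : ℝ, ∃ Jb : ℕ, ∀ J ≥ Jb, ∀ N J1 : ℕ, (N : ℝ) ≤ bN J →
  (100 : ℝ) * J1 ≤ J →
  101 / 100 * (2 * bN J * bH J) <
    2 / 1125 * (J : ℝ) ^ 4 *
      (49 / 100 * (phi (1 / 10 ^ 20) J (93 / 245 * VJ J) - N * Real.log (8 * ((N : ℝ) + 1)) -
          (K * (J : ℝ) ^ 6 + 3 / 20000 * (J1 : ℝ) ^ 2 * (J : ℝ) ^ 6 * Real.log J)) +
        31 / 100 * (phi (1 / 10 ^ 20) J (147 / 155 * VJ J) -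
          N * Real.log (8 * ((N : ℝ) + 1)) -
          (K * (J : ℝ) ^ 6 + 3 / 20000 * (J1 : ℝ) ^ 2 * (J : ℝ) ^ 6 * Real.log J)))

/-- the criterion -/
def T_FIN : Prop := FT → False

end Pool.Agent.H25.EE
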